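import Pool.Agent.W606.PS.Stm

/-! Project PS: separation with three legs from a rainbow triangle. -/

set_option autoImplicit false

open Set Relation

namespace Pool.Agent.W202.PS.Sep1

open Pool.Agent.W606.PS

variable {V T : Type}

theorem rain_mono {tv : T → Fin 3 → V} {Z Z' : Fin 3 → Set V} (h : ∀ i, Z i ⊆ Z' i) {t : T}
    (ht : Rain tv Z t) : Rain tv Z' t := by
  obtain ⟨s, hs⟩ := ht
  exact ⟨s, fun i => h i (hs i)⟩

theorem rain_mem {tv : T → Fin 3 → V} {Z : Fin 3 → Set V} {t : T} (ht : Rain tv Z t) (i : Fin 3) :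
    ∃ j, tv t i ∈ Z j := by
  obtain ⟨s, hs⟩ := ht
  refine ⟨s.symm i, ?_⟩
  have := hs (s.symm i)
  rwa [Equiv.apply_symm_apply] at this

theorem tch_mono {G : SimpleGraph V} {A B B' : Set V} (h : Tch G A B) (hB : B ⊆ B') :
    Tch G A B' := by
  obtain ⟨u, hu, v, hv, e⟩ := h
  exact ⟨u, hu, v, hB hv, e⟩

theorem partA (hF : S_FACTA) {G : SimpleGraph V} {tv : T → Fin 3 → V} (hS : Sph G tv)
    {Om : Set V} {Z L : Fin 3 → Set V} (hR : RD3 G tv Om Z) (hL : ∀ i, L i ⊆ Om)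
    (hLd : ∀ i j, i ≠ j → Disjoint (L i) (L j)) (hC : ∀ i, Con G (Z i ∪ L i)) {t : T}
    (ht : Rain tv (fun i => Z i ∪ L i) t) (htO : ∃ i, tv t i ∈ Om)
    (hne : (⋃ i, L i).Nonempty) {Om' : Set V} (hc : IsComp G (Om \ ⋃ i, L i) Om') :
    ∃ k, ¬ Tch G Om' (Z k ∪ L k) := by
  by_contra hcon
  push Not at hcon
  classical
  have hYO : (⋃ i, L i) ⊆ Om := iUnion_subset hL
  have hZO : ∀ i, ∀ v ∈ Z i, v ∉ Om := by
    intro i v hv
    have : v ∈ ⋃ i, Z i := mem_iUnion.2 ⟨i, hv⟩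
    rw [hR.cov] at this
    exact this
  have hSd : ∀ i j, i ≠ j → ∀ v, v ∈ Z i ∪ L i → v ∈ Z j ∪ L j → False := by
    intro i j hij v h1 h2
    rcases h1 with h1 | h1 <;> rcases h2 with h2 | h2
    · exact disjoint_left.1 (hR.disj i j hij) h1 h2
    · exact hZO i v h1 (hL j h2)
    · exact hZO j v h2 (hL i h1)
    · exact disjoint_left.1 (hLd i j hij) h1 h2
  have hSK : ∀ i, ∀ v, v ∈ Z i ∪ L i → v ∉ Om \ ⋃ i, L i := by
    rintro i v (h1 | h1) h2
    · exact hZO i v h1 h2.1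
    · exact h2.2 (mem_iUnion.2 ⟨i, h1⟩)
  -- the components touch the sets
  have hm : ∀ K : Set V, ∃ i : Fin 3, IsComp G (Om \ ⋃ i, L i) K → Tch G K (Z i ∪ L i) := by
    intro K
    by_cases hK : IsComp G (Om \ ⋃ i, L i) K
    · obtain ⟨a, ha, b, hb, e⟩ := hK.tch hR.om hYO hne
      obtain ⟨i, hi⟩ := mem_iUnion.1 hb
      exact ⟨i, fun _ => ⟨a, ha, b, Or.inr hi, e⟩⟩
    · exact ⟨0, fun h => absurd h hK⟩
  choose m hm using hm
  set Z2 : Fin 3 → Set V := fun i => (Z i ∪ L i) ∪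
    {v | ∃ K, IsComp G (Om \ ⋃ i, L i) K ∧ K ≠ Om' ∧ m K = i ∧ v ∈ K} with hZ2
  have hsub : ∀ i, Z i ∪ L i ⊆ Z2 i := fun i => subset_union_left
  have hcon2 : ∀ i, Con G (Z2 i) := by
    intro i
    refine con_of_cover (hC i) (hsub i) ?_
    rintro v (hv | ⟨K, hK, hKO, hKi, hv⟩)
    · obtain ⟨w, hw⟩ := (hC i).1
      exact ⟨Z i ∪ L i, hv, hsub i, hC i, w, hw, hw⟩
    · obtain ⟨a, ha, b, hb, e⟩ := hm K hK
      rw [hKi] at hb
      refine ⟨K ∪ {b}, Or.inl hv, ?_, hK.2.1.union_tch (con_singleton G b) ⟨a, ha, b, rfl, e⟩, b,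
        Or.inr rfl, hb⟩
      rintro w (hw | hw)
      · exact Or.inr ⟨K, hK, hKO, hKi, hw⟩
      · rw [mem_singleton_iff] at hw
        subst hw
        exact Or.inl hb
  have hdis2 : ∀ i j, i ≠ j → Disjoint (Z2 i) (Z2 j) := by
    intro i j hij
    rw [disjoint_left]
    rintro v (h1 | ⟨K, hK, hKO, hKi, h1⟩) (h2 | ⟨K', hK', hKO', hKi', h2⟩)
    · exact hSd i j hij v h1 h2
    · exact hSK i v h1 (hK'.1 h2)
    · exact hSK j v h2 (hK.1 h1)
    · have := hK.eq_of_inter hK' ⟨v, h1, h2⟩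
      subst this
      exact hij (hKi.symm.trans hKi')
  have hcov2 : (⋃ i, Z2 i) = Om'ᶜ := by
    ext v
    rw [mem_iUnion, mem_compl_iff]
    constructor
    · rintro ⟨i, h1 | ⟨K, hK, hKO, hKi, h1⟩⟩ h2
      · exact hSK i v h1 (hc.1 h2)
      · exact hKO (hK.eq_of_inter hc ⟨v, h1, h2⟩)
    · intro hv
      by_cases hvO : v ∈ Om
      · by_cases hvY : v ∈ ⋃ i, L i
        · obtain ⟨i, hi⟩ := mem_iUnion.1 hvY
          exact ⟨i, Or.inl (Or.inr hi)⟩
        · obtain ⟨K, hK, hvK⟩ := exists_comp G (S := Om \ ⋃ i, L i) (u := v) ⟨hvO, hvY⟩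
          refine ⟨m K, Or.inr ⟨K, hK, ?_, rfl, hvK⟩⟩
          rintro rfl
          exact hv hvK
      · have : v ∈ ⋃ i, Z i := by rw [hR.cov]; exact hvO
        obtain ⟨i, hi⟩ := mem_iUnion.1 this
        exact ⟨i, Or.inl (Or.inl hi)⟩
  obtain ⟨t0, ht0⟩ := hR.rain
  have ht0' : Rain tv Z2 t0 := rain_mono (fun i => subset_union_left.trans (hsub i)) ht0
  have ht' : Rain tv Z2 t := rain_mono hsub ht
  have hRD : RD3 G tv Om' Z2 := ⟨hc.2.1, hcon2, hdis2, hcov2, ⟨t0, ht0'⟩,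
    fun i => tch_mono (hcon i) (hsub i)⟩
  set Z' : Fin 3 → Set V := fun i => if i = 0 then Z2 0 ∪ Om' else Z2 i with hZ'
  have hZ2O : ∀ i, ∀ v ∈ Z2 i, v ∉ Om' := by
    intro i v hv
    have : v ∈ ⋃ i, Z2 i := mem_iUnion.2 ⟨i, hv⟩
    rw [hcov2] at this
    exact this
  have hsub' : ∀ i, Z2 i ⊆ Z' i := by
    intro i
    by_cases hi : i = 0
    · subst hi
      rw [hZ']
      simp only [if_true]
      exact subset_union_left
    · rw [hZ']
      simp only [if_neg hi]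
      exact subset_rfl
  have hcon' : ∀ i, Con G (Z' i) := by
    intro i
    by_cases hi : i = 0
    · subst hi
      rw [hZ']
      simp only [if_true]
      exact (hcon2 0).union_tch hc.2.1 (hRD.tch 0).symm
    · rw [hZ']
      simp only [if_neg hi]
      exact hcon2 i
  have hdis' : ∀ i j, i ≠ j → Disjoint (Z' i) (Z' j) := by
    intro i j hij
    rw [disjoint_left]
    intro v h1 h2
    by_cases hi : i = 0
    · have hj : j ≠ 0 := fun h => hij (hi.trans h.symm)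
      rw [hZ'] at h1 h2
      simp only [if_pos hi, if_neg hj] at h1 h2
      subst hi
      rcases h1 with h1 | h1
      · exact disjoint_left.1 (hdis2 0 j hij) h1 h2
      · exact hZ2O j v h2 h1
    · by_cases hj : j = 0
      · rw [hZ'] at h1 h2
        simp only [if_neg hi, if_pos hj] at h1 h2
        subst hj
        rcases h2 with h2 | h2
        · exact disjoint_left.1 (hdis2 i 0 hij) h1 h2
        · exact hZ2O i v h1 h2
      · rw [hZ'] at h1 h2
        simp only [if_neg hi, if_neg hj] at h1 h2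
        exact disjoint_left.1 (hdis2 i j hij) h1 h2
  have hcov' : (⋃ i, Z' i) = univ := by
    rw [eq_univ_iff_forall]
    intro v
    by_cases hv : v ∈ Om'
    · refine mem_iUnion.2 ⟨0, ?_⟩
      rw [hZ']
      simp only [if_true]
      exact Or.inr hv
    · have : v ∈ ⋃ i, Z2 i := by rw [hcov2]; exact hv
      obtain ⟨i, hi⟩ := mem_iUnion.1 this
      exact mem_iUnion.2 ⟨i, hsub' i hi⟩
  obtain ⟨t1, ht1, i1, hi1⟩ := hF V T G tv hS Om' Z2 hRD Z' hsub' hcon' hdis' hcov'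
  have h3 := hS.three_b Z' hcon' hdis' hcov' t0 t t1 (rain_mono hsub' ht0') (rain_mono hsub' ht') ht1
  have ht0O : ∀ i, tv t0 i ∉ Om := by
    intro i
    obtain ⟨j, hj⟩ := rain_mem ht0 i
    exact hZO j _ hj
  rcases h3 with h3 | h3 | h3
  · obtain ⟨i, hi⟩ := htO
    rw [← h3] at hi
    exact ht0O i hi
  · rw [← h3] at hi1
    exact ht0O i1 (hc.1 hi1).1
  · rw [← h3] at hi1
    obtain ⟨j, hj⟩ := rain_mem ht i1
    exact hSK j _ hj (hc.1 hi1)

theorem main (h : S_FACTA) : S_SEP1 := by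
  intro V T G tv hS Om Z L hR hL hLd hC t ht htO hLt Om' hc
  have hYO : (⋃ i, L i) ⊆ Om := iUnion_subset hL
  have hZO : ∀ i, ∀ v ∈ Z i, v ∉ Om := by
    intro i v hv
    have : v ∈ ⋃ i, Z i := mem_iUnion.2 ⟨i, hv⟩
    rw [hR.cov] at this
    exact this
  have hne : (⋃ i, L i).Nonempty := by
    obtain ⟨i, hi⟩ := htO
    obtain ⟨j, hj⟩ := rain_mem ht i
    rcases hj with hj | hj
    · exact absurd hi (hZO j _ hj)
    · exact ⟨_, mem_iUnion.2 ⟨j, hj⟩⟩
  obtain ⟨k, hk⟩ := partA h hS hR hL hLd hC ht htO hne hc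
  refine ⟨k, hk, con_union_diff hR.om hYO hne hc ?_⟩
  have hsub : Z k ∪ L k ⊆ Z k ∪ ⋃ i, L i :=
    union_subset_union_right _ (subset_iUnion L k)
  have hself : ∀ v ∈ Z k ∪ L k, ∃ R : Set V, v ∈ R ∧ R ⊆ Z k ∪ ⋃ i, L i ∧ Con G R ∧
      (R ∩ (Z k ∪ L k)).Nonempty := fun v hv =>
    ⟨Z k ∪ L k, hv, hsub, hC k, v, hv, hv⟩
  refine con_of_cover (hC k) hsub ?_
  rintro v (hv | hv)
  · exact hself v (Or.inl hv)
  · obtain ⟨i, hi⟩ := mem_iUnion.1 hv
    by_cases hik : i = k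
    · subst hik
      exact hself v (Or.inr hi)
    · rcases hLt i with h0 | ⟨h1, j, hj⟩
      · rw [h0] at hi
        exact absurd hi (notMem_empty v)
      · obtain ⟨s, hs⟩ := ht
        have hsk := hs k
        have hneq : tv t j ≠ tv t (s k) := by
          intro h2
          rw [← h2] at hsk
          rcases hsk with h3 | h3
          · exact hZO k _ h3 (hL i hj)
          · exact disjoint_left.1 (hLd i k hik) hj h3
        have hadj : G.Adj (tv t j) (tv t (s k)) := (hS.clos t j (s k)).resolve_left hneq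
        refine ⟨L i ∪ {tv t (s k)}, Or.inl hi, ?_,
          h1.union_tch (con_singleton G _) ⟨_, hj, _, rfl, hadj⟩, tv t (s k), Or.inr rfl, hsk⟩
        rintro w (hw | hw)
        · exact Or.inr (mem_iUnion.2 ⟨i, hw⟩)
        · rw [mem_singleton_iff] at hw
          rw [hw]
          exact hsub hsk

end Pool.Agent.W202.PS.Sep1
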